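import Mathlib
import Pool.Agent.TH236.SUMain

namespace Pool.Agent.Results.MP_88e1a1_al.CoprimeThirty

/-- For every `n` coprime to `30`, every matrix in `SU(n)` equals `[[x,y],[x^2,y^2]]` for some
`x, y` in `SU(n)`, where `[u,v] = u v u* v*`. -/
theorem result :
    ∀ n : ℕ, Nat.Coprime n 30 →
      ∀ g : Matrix (Fin n) (Fin n) ℂ, g ∈ Matrix.specialUnitaryGroup (Fin n) ℂ →
        ∃ x y : Matrix (Fin n) (Fin n) ℂ,
          x ∈ Matrix.specialUnitaryGroup (Fin n) ℂ ∧
          y ∈ Matrix.specialUnitaryGroup (Fin n) ℂ ∧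
          (x * y * star x * star y) * (x ^ 2 * y ^ 2 * star (x ^ 2) * star (y ^ 2)) *
            star (x * y * star x * star y) *
            star (x ^ 2 * y ^ 2 * star (x ^ 2) * star (y ^ 2)) = g := by
  intro n hn g hg
  exact Pool.TH236.SU.main_thm n hn g hg

end Pool.Agent.Results.MP_88e1a1_al.CoprimeThirty
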